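import Mathlib
import Pool.Agent.N753.SU.StmM
import Pool.Agent.N692.SU_R

/-!
# SU/RM: integral models and bad primes of the fibres over a base of several variables
(helper73, after helper692)
-/

set_option autoImplicit false
set_option linter.unusedSectionVars false

namespace Pool.Agent.N73.SURM

open NumberField IsDedekindDomain Finset Pool.Agent.H691R3
open Pool.Agent.TH876.Loc hiding mx
open Pool.Agent.N753.LS Pool.Agent.N753.SF Pool.Agent.N753.SU Polynomial Height
open Pool.Agent.N692.SUR (su mem_su fv_le_of_notMem sl sl_mono sl_union sl_su_le su_mul_subset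
  sl_su_mul height_nat den_fin good_of_goodS notMem_of_notMem_su)

/-- Bezout identity -/
theorem bezout {R : Type} [CommRing R] [IsDomain R] [NormalizedGCDMonoid R] [CharZero R]
    (F : R[X]) (hF : Irreducible F) (hd : 1 ≤ F.natDegree) :
    ∃ (a b : R[X]) (n : R), n ≠ 0 ∧ a * F + b * derivative F = Polynomial.C n := by
  have hprim : F.IsPrimitive := hF.isPrimitive (by omega)
  have hirr : Irreducible (F.map (algebraMap R (FractionRing R))) :=
    (hprim.irreducible_iff_irreducible_map_fraction_map (K := FractionRing R)).1 hF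
  have hsep : (F.map (algebraMap R (FractionRing R))).Separable := hirr.separable
  obtain ⟨a, b, hab⟩ := hsep
  obtain ⟨m, hm0, hm⟩ := IsLocalization.integerNormalization_spec (nonZeroDivisors R) a
  obtain ⟨n, hn0, hn⟩ := IsLocalization.integerNormalization_spec (nonZeroDivisors R) b
  obtain ⟨A, hA⟩ : ∃ A, A = IsLocalization.integerNormalization (nonZeroDivisors R) a := ⟨_, rfl⟩
  obtain ⟨B, hB⟩ : ∃ B, B = IsLocalization.integerNormalization (nonZeroDivisors R) b := ⟨_, rfl⟩
  rw [← hA] at hm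
  rw [← hB] at hn
  have hm' : A.map (algebraMap R (FractionRing R)) =
      Polynomial.C (algebraMap R (FractionRing R) m) * a := by
    ext i
    rw [hm, coeff_smul, coeff_C_mul, Algebra.smul_def]
  have hn' : B.map (algebraMap R (FractionRing R)) =
      Polynomial.C (algebraMap R (FractionRing R) n) * b := by
    ext i
    rw [hn, coeff_smul, coeff_C_mul, Algebra.smul_def]
  refine ⟨Polynomial.C n * A, Polynomial.C m * B, m * n, mul_ne_zero (nonZeroDivisors.ne_zero hm0)
    (nonZeroDivisors.ne_zero hn0), ?_⟩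
  apply Polynomial.map_injective (algebraMap R (FractionRing R))
    (FaithfulSMul.algebraMap_injective _ _)
  rw [Polynomial.map_add, Polynomial.map_mul, Polynomial.map_mul, Polynomial.map_mul,
    Polynomial.map_mul, Polynomial.map_C, Polynomial.map_C, Polynomial.map_C, hm', hn',
    ← derivative_map, map_mul, C_mul]
  linear_combination (Polynomial.C (algebraMap R (FractionRing R) m) *
    Polynomial.C (algebraMap R (FractionRing R) n)) * hab

variable {K : Type} [Field K] [NumberField K] {m : ℕ}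

/-- the sum of the heights of the coordinates -/
noncomputable def hs (y : Fin m → K) : ℝ := ∑ i, logHeight₁ (y i)

theorem hs_nonneg (y : Fin m → K) : 0 ≤ hs y := sum_nonneg fun _ _ => zero_le_logHeight₁ _

/-- the height of the value of a polynomial -/
theorem height_eval (f : MvPolynomial (Fin m) K) : ∃ C : ℝ, 0 ≤ C ∧ ∀ y : Fin m → K,
    logHeight₁ (MvPolynomial.eval y f) ≤ C * (1 + hs y) := by
  induction f using MvPolynomial.induction_on with
  | C a =>
    refine ⟨logHeight₁ a, zero_le_logHeight₁ a, fun y => ?_⟩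
    rw [MvPolynomial.eval_C]
    have h5 := hs_nonneg y
    have h6 := zero_le_logHeight₁ a
    nlinarith
  | add p q hp hq =>
    obtain ⟨C, hC, h1⟩ := hp
    obtain ⟨D, hD, h2⟩ := hq
    have hw : 0 ≤ (totalWeight K : ℝ) * Real.log 2 :=
      mul_nonneg (Nat.cast_nonneg _) (Real.log_nonneg (by norm_num))
    refine ⟨C + D + totalWeight K * Real.log 2, by positivity, fun x => ?_⟩
    rw [map_add]
    refine (logHeight₁_add_le _ _).trans ?_
    have h3 := h1 x
    have h4 := h2 x
    have h5 := hs_nonneg x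
    nlinarith
  | mul_X p i hp =>
    obtain ⟨C, hC, h1⟩ := hp
    refine ⟨C + 1, by positivity, fun y => ?_⟩
    rw [map_mul, MvPolynomial.eval_X]
    refine (logHeight₁_mul_le _ _).trans ?_
    have h3 := h1 y
    have h4 : logHeight₁ (y i) ≤ hs y :=
      Finset.single_le_sum (f := fun i => logHeight₁ (y i)) (fun _ _ => zero_le_logHeight₁ _)
        (Finset.mem_univ i)
    nlinarith

/-- the fibre of a polynomial with coefficients in a polynomial ring -/
noncomputable def fb (P : (MvPolynomial (Fin m) K)[X]) (y : Fin m → K) : K[X] :=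
  P.map (MvPolynomial.eval y)

/-- integral multiples of the fibres -/
theorem den_poly (P : (MvPolynomial (Fin m) K)[X]) : ∃ C : ℝ, 0 ≤ C ∧ ∀ y : Fin m → K,
    ∃ (d : 𝓞 K) (p : (𝓞 K)[X]), d ≠ 0 ∧
    p.map (algebraMap (𝓞 K) K) = Polynomial.C (algebraMap (𝓞 K) K d) * fb P y ∧
    sl (su (algebraMap (𝓞 K) K d)) ≤ C * (1 + hs y) := by
  classical
  choose Ch hCh0 hCh using fun i => height_eval (P.coeff i)
  refine ⟨2 * totalWeight K * ∑ i ∈ P.support, Ch i, ?_, fun y => ?_⟩
  · have : 0 ≤ ∑ i ∈ P.support, Ch i := Finset.sum_nonneg fun i _ => hCh0 i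
    positivity
  obtain ⟨d, hd, h1, h2⟩ := den_fin P.support fun i => MvPolynomial.eval y (P.coeff i)
  have h3 : Polynomial.C (algebraMap (𝓞 K) K d) * fb P y ∈
      Polynomial.lifts (algebraMap (𝓞 K) K) := by
    rw [Polynomial.lifts_iff_coeff_lifts]
    intro i
    rw [coeff_C_mul]
    unfold fb
    rw [coeff_map]
    by_cases hi : i ∈ P.support
    · obtain ⟨r, hr⟩ := h1 i hi
      exact ⟨r, hr⟩
    · rw [notMem_support_iff] at hi
      rw [hi, map_zero, mul_zero]
      exact ⟨0, map_zero _⟩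
  obtain ⟨p, hp⟩ := (Polynomial.mem_lifts _).1 h3
  refine ⟨d, p, hd, hp, h2.trans ?_⟩
  have h5 : ∑ i ∈ P.support, logHeight₁ (MvPolynomial.eval y (P.coeff i)) ≤
      (∑ i ∈ P.support, Ch i) * (1 + hs y) := by
    rw [Finset.sum_mul]
    exact Finset.sum_le_sum fun i _ => hCh i y
  calc 2 * (totalWeight K : ℝ) * ∑ i ∈ P.support, logHeight₁ (MvPolynomial.eval y (P.coeff i)) ≤
      2 * (totalWeight K : ℝ) * ((∑ i ∈ P.support, Ch i) * (1 + hs y)) :=
        mul_le_mul_of_nonneg_left h5 (by positivity)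
    _ = _ := by ring

open Classical in
/-- the primes at which some coordinate is not a unit -/
noncomputable def sy (y : Fin m → K) : Finset (Pr K) := Finset.univ.biUnion fun i => su (y i)

theorem sl_nonneg (s : Finset (Pr K)) : 0 ≤ sl s := Finset.sum_nonneg fun v _ => (log_Nv_pos v).le

theorem sl_biUnion {ι : Type} (s : Finset ι) (f : ι → Finset (Pr K)) :
    (open Classical in sl (s.biUnion f) ≤ ∑ i ∈ s, sl (f i)) := by
  classical
  induction s using Finset.induction_on with
  | empty =>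
    rw [Finset.biUnion_empty, Finset.sum_empty]
    exact (Finset.sum_empty).le
  | insert i s hi ih =>
    rw [Finset.biUnion_insert, Finset.sum_insert hi]
    have h := sl_union (f i) (s.biUnion f)
    have h2 : sl (f i ∪ s.biUnion f) ≤ sl (f i) + sl (s.biUnion f) := by convert h
    have h3 : sl (s.biUnion f) ≤ ∑ i ∈ s, sl (f i) := by convert ih
    have : sl (f i ∪ s.biUnion f) ≤ sl (f i) + ∑ i ∈ s, sl (f i) := by linarith
    convert this

theorem sl_sy (y : Fin m → K) : sl (sy y) ≤ 2 * hs y := by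
  refine (sl_biUnion _ _).trans ?_
  unfold hs
  rw [Finset.mul_sum]
  exact Finset.sum_le_sum fun i _ => sl_su_le (y i)

/-- **SU/RM** -/
theorem stmRM : StmRM := by
  classical
  intro K _ _ m G hG hd
  obtain ⟨F, hFG⟩ : ∃ F, F = MvPolynomial.finSuccEquiv K m G := ⟨_, rfl⟩
  have hF : Irreducible F := by
    rw [hFG]
    exact (MulEquiv.irreducible_iff (MvPolynomial.finSuccEquiv K m).toMulEquiv).2 hG
  have hnd : F.natDegree = G.degreeOf 0 := by
    rw [hFG, MvPolynomial.natDegree_finSuccEquiv]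
  rw [← hnd] at hd
  have hfb : ∀ y, fibm G y = fb F y := fun y => by rw [hFG]; rfl
  let _ : StrongNormalizationMonoid (MvPolynomial (Fin m) K) :=
    UniqueFactorizationMonoid.strongNormalizationMonoid
  let _ : NormalizedGCDMonoid (MvPolynomial (Fin m) K) :=
    UniqueFactorizationMonoid.toNormalizedGCDMonoid _
  obtain ⟨A, B, R, hR, hAB⟩ := bezout F hF hd
  have hlc : F.leadingCoeff ≠ 0 := by
    rw [Ne, leadingCoeff_eq_zero]
    exact hF.ne_zero
  obtain ⟨C1, hC1, h1⟩ := den_poly F
  obtain ⟨C2, hC2, h2⟩ := den_poly A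
  obtain ⟨C3, hC3, h3⟩ := den_poly B
  obtain ⟨C4, hC4, h4⟩ := height_eval R
  obtain ⟨C5, hC5, h5⟩ := height_eval F.leadingCoeff
  have h2h := zero_le_logHeight₁ (2 : K)
  refine ⟨R * F.leadingCoeff, C1 + C2 + C3 + 2 * C4 + 2 * C5 + 2 + 2 * logHeight₁ (2 : K),
    mul_ne_zero hR hlc, by positivity, fun y hy => ?_⟩
  rw [map_mul] at hy
  have hRy : MvPolynomial.eval y R ≠ 0 := left_ne_zero_of_mul hy
  have hly : MvPolynomial.eval y F.leadingCoeff ≠ 0 := right_ne_zero_of_mul hy
  obtain ⟨d1, f, hd1, hf, hs1⟩ := h1 y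
  obtain ⟨d2, a, hd2, ha, hs2⟩ := h2 y
  obtain ⟨d3, b, hd3, hb, hs3⟩ := h3 y
  have hinj : Function.Injective (algebraMap (𝓞 K) K) := FaithfulSMul.algebraMap_injective _ _
  have hd1' : algebraMap (𝓞 K) K d1 ≠ 0 := by
    rw [Ne, FaithfulSMul.algebraMap_eq_zero_iff]; exact hd1
  have hd2' : algebraMap (𝓞 K) K d2 ≠ 0 := by
    rw [Ne, FaithfulSMul.algebraMap_eq_zero_iff]; exact hd2
  have hd3' : algebraMap (𝓞 K) K d3 ≠ 0 := by
    rw [Ne, FaithfulSMul.algebraMap_eq_zero_iff]; exact hd3
  -- degree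
  have hdegf : (fb F y).natDegree = F.natDegree := by
    unfold fb
    exact natDegree_map_of_leadingCoeff_ne_zero _ hly
  have hdeg : f.natDegree = F.natDegree := by
    rw [← natDegree_map_eq_of_injective hinj, hf, natDegree_C_mul hd1', hdegf]
  have hlcf : algebraMap (𝓞 K) K f.leadingCoeff =
      algebraMap (𝓞 K) K d1 * MvPolynomial.eval y F.leadingCoeff := by
    unfold leadingCoeff
    rw [← coeff_map, hf, coeff_C_mul, hdeg]
    unfold fb
    rw [coeff_map]
  -- the Bezout identity on the fibre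
  have hBy : fb A y * fb F y + fb B y * derivative (fb F y) =
      Polynomial.C (MvPolynomial.eval y R) := by
    have h := congrArg (fun P : (MvPolynomial (Fin m) K)[X] => P.map (MvPolynomial.eval y)) hAB
    simp only [Polynomial.map_add, Polynomial.map_mul, Polynomial.map_C,
      ← derivative_map] at h
    exact h
  obtain ⟨g, hg⟩ : ∃ g, g = Polynomial.C d3 * a * f + Polynomial.C d2 * b * derivative f := ⟨_, rfl⟩
  obtain ⟨κ, hκ⟩ : ∃ κ, κ = algebraMap (𝓞 K) K d1 * (algebraMap (𝓞 K) K d2 *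
      algebraMap (𝓞 K) K d3) * MvPolynomial.eval y R := ⟨_, rfl⟩
  have hgm : g.map (algebraMap (𝓞 K) K) = Polynomial.C κ := by
    rw [hg, Polynomial.map_add, Polynomial.map_mul, Polynomial.map_mul, Polynomial.map_mul,
      Polynomial.map_mul, Polynomial.map_C, Polynomial.map_C, ← derivative_map, hf, ha, hb, hκ,
      derivative_C_mul, C_mul, C_mul, C_mul]
    linear_combination (Polynomial.C (algebraMap (𝓞 K) K d1) * (Polynomial.C (algebraMap (𝓞 K) K d2) *
      Polynomial.C (algebraMap (𝓞 K) K d3))) * hBy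
  have hgC : g = Polynomial.C (g.coeff 0) := by
    apply Polynomial.map_injective _ hinj
    rw [hgm, Polynomial.map_C]
    congr 1
    have := congrArg (fun p : K[X] => p.coeff 0) hgm
    simp only [coeff_map, coeff_C_zero] at this
    exact this.symm
  have hg0 : algebraMap (𝓞 K) K (g.coeff 0) = κ := by
    have := congrArg (fun p : K[X] => p.coeff 0) hgm
    simp only [coeff_map, coeff_C_zero] at this
    exact this
  have hκ0 : κ ≠ 0 := by
    rw [hκ]
    exact mul_ne_zero (mul_ne_zero hd1' (mul_ne_zero hd2' hd3')) hRy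
  have hlcf0 : algebraMap (𝓞 K) K d1 * MvPolynomial.eval y F.leadingCoeff ≠ 0 :=
    mul_ne_zero hd1' hly
  refine ⟨f, algebraMap (𝓞 K) K d1, sy y ∪ su (algebraMap (𝓞 K) K d1) ∪
    su (algebraMap (𝓞 K) K d2) ∪ su (algebraMap (𝓞 K) K d3) ∪ su (MvPolynomial.eval y R) ∪
    su (MvPolynomial.eval y F.leadingCoeff) ∪ su (2 : K), hd1', by rw [hfb]; exact hf,
    hdeg.trans hnd, ?_, ?_⟩
  · intro v hv
    simp only [Finset.mem_union, not_or] at hv
    obtain ⟨⟨⟨⟨⟨⟨v1, v2⟩, v3⟩, v4⟩, v5⟩, v6⟩, v7⟩ := hv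
    have e1 : fv v (algebraMap (𝓞 K) K d1) = 1 := by rw [mem_su hd1', not_not] at v2; exact v2
    have e2 : fv v (algebraMap (𝓞 K) K d2) = 1 := by rw [mem_su hd2', not_not] at v3; exact v3
    have e3 : fv v (algebraMap (𝓞 K) K d3) = 1 := by rw [mem_su hd3', not_not] at v4; exact v4
    have e4 : fv v (MvPolynomial.eval y R) = 1 := by rw [mem_su hRy, not_not] at v5; exact v5
    have e5 : fv v (MvPolynomial.eval y F.leadingCoeff) = 1 := by
      rw [mem_su hly, not_not] at v6; exact v6
    have hS : GoodS f v := by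
      refine ⟨⟨Polynomial.C d3 * a, Polynomial.C d2 * b, g.coeff 0, ?_, ?_⟩, ?_⟩
      · rw [← hgC, hg]
      · refine notMem_of_notMem_su hκ0 hg0 ?_
        rw [mem_su hκ0, not_not, hκ, map_mul, map_mul, map_mul, e1, e2, e3, e4]
        norm_num
      · refine notMem_of_notMem_su hlcf0 hlcf ?_
        rw [mem_su hlcf0, not_not, map_mul, e1, e5]
        norm_num
    refine ⟨good_of_goodS hS (by omega) ?_, hS, fun i => fv_le_of_notMem ?_, e1⟩
    · exact notMem_of_notMem_su (two_ne_zero) (by rw [map_ofNat]) v7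
    · intro hi
      exact v1 (Finset.mem_biUnion.2 ⟨i, Finset.mem_univ i, hi⟩)
  · have hh : ∑ i, hr (aff (y i)) = hs y := Finset.sum_congr rfl fun i _ => hr_aff (y i)
    rw [hh]
    have b0 := hs_nonneg y
    have b1 := sl_sy y
    have b4 := sl_su_le (MvPolynomial.eval y R)
    have b5 := sl_su_le (MvPolynomial.eval y F.leadingCoeff)
    have b7 := sl_su_le (2 : K)
    have c4 := h4 y
    have c5 := h5 y
    have u1 := sl_union (sy y) (su (algebraMap (𝓞 K) K d1))
    have u2 := sl_union (sy y ∪ su (algebraMap (𝓞 K) K d1)) (su (algebraMap (𝓞 K) K d2))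
    have u3 := sl_union (sy y ∪ su (algebraMap (𝓞 K) K d1) ∪ su (algebraMap (𝓞 K) K d2))
      (su (algebraMap (𝓞 K) K d3))
    have u4 := sl_union (sy y ∪ su (algebraMap (𝓞 K) K d1) ∪ su (algebraMap (𝓞 K) K d2) ∪
      su (algebraMap (𝓞 K) K d3)) (su (MvPolynomial.eval y R))
    have u5 := sl_union (sy y ∪ su (algebraMap (𝓞 K) K d1) ∪ su (algebraMap (𝓞 K) K d2) ∪
      su (algebraMap (𝓞 K) K d3) ∪ su (MvPolynomial.eval y R))
      (su (MvPolynomial.eval y F.leadingCoeff))
    have u6 := sl_union (sy y ∪ su (algebraMap (𝓞 K) K d1) ∪ su (algebraMap (𝓞 K) K d2) ∪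
      su (algebraMap (𝓞 K) K d3) ∪ su (MvPolynomial.eval y R) ∪
      su (MvPolynomial.eval y F.leadingCoeff)) (su (2 : K))
    have hfin : sl (sy y ∪ su (algebraMap (𝓞 K) K d1) ∪ su (algebraMap (𝓞 K) K d2) ∪
      su (algebraMap (𝓞 K) K d3) ∪ su (MvPolynomial.eval y R) ∪
      su (MvPolynomial.eval y F.leadingCoeff) ∪ su (2 : K)) ≤
      (C1 + C2 + C3 + 2 * C4 + 2 * C5 + 2 + 2 * logHeight₁ (2 : K)) * (1 + hs y) := by
      nlinarith
    exact hfin

end Pool.Agent.N73.SURM
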